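import Pool.Agent.Y685.SY.Stm2

/-!
# Uniform absolute continuity for a compact family (task SY2-EQUI)
-/

set_option maxSynthPendingDepth 3

open scoped Manifold ContDiff Topology ENNReal
open MeasureTheory Set Metric Filter

namespace Pool.Agent.Y70.SY

open Pool.Agent.Y685.SY

theorem add_pow_le (a b : ℝ≥0∞) (m : ℕ) : (a + b) ^ m ≤ 2 ^ m * (a ^ m + b ^ m) := by
  rcases le_total a b with h | h
  · calc (a + b) ^ m ≤ (b + b) ^ m := pow_le_pow_left' (by gcongr) m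
      _ = 2 ^ m * b ^ m := by rw [← two_mul, mul_pow]
      _ ≤ 2 ^ m * (a ^ m + b ^ m) := by gcongr; exact le_add_self
  · calc (a + b) ^ m ≤ (a + a) ^ m := pow_le_pow_left' (by gcongr) m
      _ = 2 ^ m * a ^ m := by rw [← two_mul, mul_pow]
      _ ≤ 2 ^ m * (a ^ m + b ^ m) := by gcongr; exact le_self_add

variable (E : Type) [NormedAddCommGroup E] [InnerProductSpace ℝ E] [FiniteDimensional ℝ E]
  [MeasurableSpace E] [BorelSpace E]

theorem small_ball (hm : 0 < Module.finrank ℝ E) {η : ℝ≥0∞} (hη : 0 < η) {δ₀ : ℝ} (hδ : 0 < δ₀) :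
    ∃ d : ℝ, 0 < d ∧ d ≤ δ₀ ∧ ∀ x : E, volume (ball x d) < η := by
  have h1 : Tendsto (fun d : ℝ => ENNReal.ofReal (d ^ Module.finrank ℝ E) *
      volume (ball (0 : E) 1)) (𝓝[>] 0) (𝓝 (0 * volume (ball (0 : E) 1))) := by
    refine ENNReal.Tendsto.mul_const ?_ (Or.inr measure_ball_lt_top.ne)
    have h2 : Tendsto (fun d : ℝ => d ^ Module.finrank ℝ E) (𝓝[>] 0) (𝓝 0) := by
      have h3 : Tendsto (fun d : ℝ => d ^ Module.finrank ℝ E) (𝓝 0)
          (𝓝 (0 ^ Module.finrank ℝ E)) := (continuous_pow _).tendsto 0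
      rw [zero_pow hm.ne'] at h3
      exact h3.mono_left nhdsWithin_le_nhds
    have h4 := ENNReal.tendsto_ofReal h2
    rwa [ENNReal.ofReal_zero] at h4
  rw [zero_mul] at h1
  have h2 := h1.eventually (gt_mem_nhds hη)
  have h3 : ∀ᶠ d : ℝ in 𝓝[>] 0, d ∈ Ioc 0 δ₀ := Ioc_mem_nhdsGT hδ
  obtain ⟨d, hd, hd'⟩ := (h2.and h3).exists
  refine ⟨d, hd'.1, hd'.2, fun x => ?_⟩
  rw [Measure.addHaar_ball_of_pos volume x hd'.1]
  exact hd

theorem t_EQUI : S_EQUI E := by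
  intro hm ι _ _ V _ G U hU hG hfin hcont K hKU hK ε hε
  obtain ⟨δ₀, hδ₀, hsub⟩ := hK.exists_cthickening_subset_open hU hKU
  obtain ⟨K', hK'⟩ : ∃ K', K' = cthickening δ₀ K := ⟨_, rfl⟩
  have hK'c : IsCompact K' := by rw [hK']; exact hK.cthickening
  have hK'U : K' ⊆ U := by rw [hK']; exact hsub
  have hball : ∀ x ∈ K, ∀ d ≤ δ₀, closedBall x d ⊆ K' := by
    intro x hx d hd
    rw [hK']
    exact (closedBall_subset_closedBall hd).trans (closedBall_subset_cthickening hx δ₀)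
  have key : ∃ δ > 0, δ ≤ δ₀ ∧ ∀ t ∈ (univ : Set ι), ∀ x ∈ K,
      ∫⁻ y in ball x δ, ‖G t y‖ₑ ^ Module.finrank ℝ E ≤ ENNReal.ofReal ε := by
    refine isCompact_univ.induction_on (p := fun S : Set ι => ∃ δ > 0, δ ≤ δ₀ ∧ ∀ t ∈ S, ∀ x ∈ K,
      ∫⁻ y in ball x δ, ‖G t y‖ₑ ^ Module.finrank ℝ E ≤ ENNReal.ofReal ε) ?_ ?_ ?_ ?_
    · exact ⟨δ₀, hδ₀, le_rfl, fun t ht => absurd ht (notMem_empty t)⟩
    · rintro S T hST ⟨δ, h1, h2, h3⟩
      exact ⟨δ, h1, h2, fun t ht => h3 t (hST ht)⟩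
    · rintro S T ⟨δ, h1, h2, h3⟩ ⟨δ', h1', h2', h3'⟩
      refine ⟨min δ δ', lt_min h1 h1', (min_le_left _ _).trans h2, ?_⟩
      rintro t (ht | ht) x hx
      · exact (lintegral_mono_set (ball_subset_ball (min_le_left _ _))).trans (h3 t ht x hx)
      · exact (lintegral_mono_set (ball_subset_ball (min_le_right _ _))).trans (h3' t ht x hx)
    · intro t₀ _
      obtain ⟨e', he'⟩ : ∃ e' : ℝ≥0∞, e' = ENNReal.ofReal ε / (2 ^ Module.finrank ℝ E * 2) :=
        ⟨_, rfl⟩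
      have hc0 : (2 : ℝ≥0∞) ^ Module.finrank ℝ E * 2 ≠ 0 :=
        mul_ne_zero (pow_ne_zero _ two_ne_zero) two_ne_zero
      have hct : (2 : ℝ≥0∞) ^ Module.finrank ℝ E * 2 ≠ ⊤ :=
        ENNReal.mul_ne_top (ENNReal.pow_ne_top ENNReal.ofNat_ne_top) ENNReal.ofNat_ne_top
      have he0 : e' ≠ 0 := by
        rw [he']
        exact (ENNReal.div_pos (ENNReal.ofReal_pos.2 hε).ne' hct).ne'
      have hee : 2 ^ Module.finrank ℝ E * (e' + e') = ENNReal.ofReal ε := by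
        rw [← mul_two, he', mul_comm _ (2 : ℝ≥0∞), ← mul_assoc]
        exact ENNReal.mul_div_cancel hc0 hct
      obtain ⟨η, hη, hηs⟩ := exists_pos_setLIntegral_lt_of_measure_lt
        (μ := volume.restrict K') (hfin t₀ K' hK'U hK'c).ne he0
      obtain ⟨d, hd0, hdδ, hd⟩ := small_ball E hm hη hδ₀
      have hev := (hcont K' hK'U hK'c t₀).eventually (gt_mem_nhds (pos_iff_ne_zero.2 he0))
      refine ⟨_, mem_nhdsWithin_of_mem_nhds hev, d, hd0, hdδ, ?_⟩
      intro t ht x hx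
      have hbK : ball x d ⊆ K' := ball_subset_closedBall.trans (hball x hx d hdδ)
      have hbU : ball x d ⊆ U := hbK.trans hK'U
      have h1 : ∫⁻ y in ball x d, ‖G t₀ y‖ₑ ^ Module.finrank ℝ E ≤ e' := by
        have h2 := hηs (ball x d) ((Measure.restrict_apply_le _ _).trans_lt (hd x))
        rw [Measure.restrict_restrict measurableSet_ball, inter_eq_self_of_subset_left hbK] at h2
        exact h2.le
      have h2 : ∫⁻ y in ball x d, ‖G t y - G t₀ y‖ₑ ^ Module.finrank ℝ E ≤ e' :=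
        (lintegral_mono_set hbK).trans (le_of_lt ht)
      have hmeas : AEMeasurable (fun y => ‖G t₀ y‖ₑ ^ Module.finrank ℝ E)
          (volume.restrict (ball x d)) :=
        (((hG t₀).mono_measure (Measure.restrict_mono hbU le_rfl)).enorm).pow_const _
      calc ∫⁻ y in ball x d, ‖G t y‖ₑ ^ Module.finrank ℝ E
          ≤ ∫⁻ y in ball x d, 2 ^ Module.finrank ℝ E * (‖G t₀ y‖ₑ ^ Module.finrank ℝ E +
              ‖G t y - G t₀ y‖ₑ ^ Module.finrank ℝ E) := by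
            refine lintegral_mono fun y => ?_
            refine le_trans (pow_le_pow_left' ?_ _) (add_pow_le _ _ _)
            have h3 : G t y = G t₀ y + (G t y - G t₀ y) := by abel
            calc ‖G t y‖ₑ = ‖G t₀ y + (G t y - G t₀ y)‖ₑ := by rw [← h3]
              _ ≤ _ := enorm_add_le _ _
        _ = 2 ^ Module.finrank ℝ E * ((∫⁻ y in ball x d, ‖G t₀ y‖ₑ ^ Module.finrank ℝ E) +
              ∫⁻ y in ball x d, ‖G t y - G t₀ y‖ₑ ^ Module.finrank ℝ E) := by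
            rw [lintegral_const_mul' _ _ (ENNReal.pow_ne_top ENNReal.ofNat_ne_top),
              lintegral_add_left' hmeas]
        _ ≤ 2 ^ Module.finrank ℝ E * (e' + e') := by gcongr
        _ = ENNReal.ofReal ε := hee
  obtain ⟨δ, hδ, hδδ, h⟩ := key
  exact ⟨δ, hδ, fun t x hx => ⟨(hball x hx δ hδδ).trans hK'U, h t (mem_univ t) x hx⟩⟩

end Pool.Agent.Y70.SY
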